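import Pool.Agent.L7h23.HallK
import Pool.Agent.N251.LF.Win

/-!
# Hall's conjecture up to exponential heights for all `k` near the values of generic polynomials and generic linear forms

Let `v_i`, `i` in a countable set, be vectors in `ℝ^m`, `O(X^(τ + ε))` of them of norm at most `X` for every `ε > 0`: for
instance `(1, n, …, n^d)` with `τ = 1 / d`, or `(b_1^(n_1), …, b_m^(n_m))`, `b_j > 1`, for all `n_1, …, n_m`, with `τ = 0`, or
`(n_1^(a_1), …, n_m^(a_m))` with `τ = ∑ 1 / a_j`. Let `θ < 1`.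

1. For all `α` in `ℝ^m` outside a set of Hausdorff dimension at most `m - 1 + (99/100 + τ) / (1 - θ)` and all `c`, for all but
   finitely many `i`, NONE of the equations `y ^ 2 = x ^ 3 + k`, `k ≠ 0`, `||k| - α · v_i| ≤ c ‖v_i‖^θ`, has an integral
   solution with `|x| ≤ exp (|k| ^ (1 / 10000))`. The bound is less than `m` if `τ + θ < 1 / 100`: so this holds for almost all
   real polynomials `f` of degree `d > 100` and the `k` near `f(n)`, `n` large, and for almost all `(α_1, …, α_m)` and the `k`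
   near `α_1 b_1^(n_1) + … + α_m b_m^(n_m)`.
2. Let `A ≥ 2`. For all `α` outside a set of Hausdorff dimension at most `m - 1 + (A/4 + 1/6 + τ) / (1 - θ)`, all `c` and all
   `C > 0`, for all but finitely many `i`, ALL integral solutions of ALL these equations with `|x| ≤ |k| ^ A` satisfy Hall's
   inequality `max (|x|, |y|) ≤ C |k| ^ 3`. For `A = 2` this is the case for almost all polynomials of degree `d ≥ 4`.

Proof. For each `i` the set of the `α` with an exceptional `k` in the window is contained in few slabs between parallel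
hyperplanes, by the starting theorems `AlmostAllK` and `SparseViolations` of this problem; they are covered by small cubes
(`Pool.Agent.N251.LF`).
-/

set_option autoImplicit false

namespace Pool.Agent.Results.MP_f2148a_nt.GenericLinearForms

open Finset
open Pool.Agent.L7h23.HK (NoPoint HallUpTo count_no count_hall)
open Pool.Agent.N251.LF (Fam Sq linear_windows)

theorem no_points {m : ℕ} {ι : Type} {v : ι → Fin m → ℝ} {τ θ : ℝ} (hv : Fam v τ) (hτ : 0 ≤ τ) (hθ : θ < 1) :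
    ∃ E : Set (Fin m → ℝ), dimH E ≤ ENNReal.ofReal ((m : ℝ) - 1 + (99 / 100 + τ) / (1 - θ)) ∧
      ∀ α, α ∉ E → ∀ c : ℝ, {i | ¬ ∀ k : ℤ, k ≠ 0 → |(|k| : ℝ) - ∑ j, α j * v i j| ≤ c * ‖v i‖ ^ θ →
        NoPoint k}.Finite := by
  obtain ⟨E, h1, h2⟩ := linear_windows {k : ℤ | k ≠ 0 ∧ ¬ NoPoint k} (fun k => |(k : ℝ)|) v
    (s := 99 / 100) (by norm_num) hτ hθ hv count_no
  refine ⟨E, h1, fun α hα c => (h2 α hα c).subset ?_⟩
  intro i hi
  simp only [Set.mem_setOf_eq] at hi ⊢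
  push Not at hi
  obtain ⟨k, hk, h3, h4⟩ := hi
  exact ⟨k, ⟨hk, h4⟩, h3⟩

theorem hall_points {m : ℕ} {ι : Type} {v : ι → Fin m → ℝ} {τ θ : ℝ} (hv : Fam v τ) (hτ : 0 ≤ τ) (hθ : θ < 1) (A : ℝ)
    (hA : 2 ≤ A) :
    ∃ E : Set (Fin m → ℝ), dimH E ≤ ENNReal.ofReal ((m : ℝ) - 1 + (A / 4 + 1 / 6 + τ) / (1 - θ)) ∧
      ∀ α, α ∉ E → ∀ c C : ℝ, 0 < C → {i | ¬ ∀ k : ℤ, k ≠ 0 → |(|k| : ℝ) - ∑ j, α j * v i j| ≤ c * ‖v i‖ ^ θ →
        HallUpTo C A k}.Finite := by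
  have key := fun j : ℕ => linear_windows {k : ℤ | k ≠ 0 ∧ ¬ HallUpTo (1 / ((j : ℝ) + 1)) A k}
    (fun k => |(k : ℝ)|) v (s := A / 4 + 1 / 6) (by linarith) hτ hθ hv (count_hall _ A (by positivity) hA)
  choose E hE1 hE2 using key
  refine ⟨⋃ j, E j, ?_, fun α hαE c C hC => ?_⟩
  · rw [dimH_iUnion]
    exact iSup_le hE1
  · rw [Set.mem_iUnion] at hαE
    push Not at hαE
    obtain ⟨j, hj⟩ := exists_nat_one_div_lt hC
    refine (hE2 j α (hαE j) c).subset ?_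
    intro i hi
    simp only [Set.mem_setOf_eq] at hi ⊢
    push Not at hi
    obtain ⟨k, hk, h3, h4⟩ := hi
    exact ⟨k, ⟨hk, fun h => h4 (h.mono hj.le)⟩, h3⟩

/-- **Theorem.** Let `v` be a family of vectors in `ℝ^m` of exponent `τ ≥ 0` and `θ < 1`.
(1) For all `α` in `ℝ^m` outside a set of Hausdorff dimension at most `m - 1 + (99/100 + τ) / (1 - θ)` and all `c`, for all but
finitely many `i`, for all `k ≠ 0` with `||k| - ∑ α_j v_(i,j)| ≤ c ‖v_i‖^θ` the equation `y ^ 2 = x ^ 3 + k` has no integral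
solution with `|x| ≤ exp (|k| ^ (1 / 10000))`.
(2) For `A ≥ 2`, all `α` outside a set of Hausdorff dimension at most `m - 1 + (A/4 + 1/6 + τ) / (1 - θ)`, all `c` and all
`C > 0`, for all but finitely many `i`, for all such `k`, `max (|x|, |y|) ≤ C |k| ^ 3` for all integral solutions of
`y ^ 2 = x ^ 3 + k` with `|x| ≤ |k| ^ A`.
(3) The vectors `(1, n, …, n^d)` are a family of exponent `1 / d`, the `(b_1^(n_1), …, b_m^(n_m))` with `b_j > 1` one of
exponent `0`, the `(n_1^(a_1), …, n_m^(a_m))` with `a_j > 0` one of exponent `∑ 1 / a_j`, and the `(u_1(n_1), …, u_m(n_m))` one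
of exponent `∑ τ_j`, if the sequences `u_j` have exponents `τ_j`. -/
theorem result :
    (∀ (m : ℕ) (ι : Type) (v : ι → Fin m → ℝ) (τ θ : ℝ), Fam v τ → 0 ≤ τ → θ < 1 →
      (∃ E : Set (Fin m → ℝ), dimH E ≤ ENNReal.ofReal ((m : ℝ) - 1 + (99 / 100 + τ) / (1 - θ)) ∧
        ∀ α, α ∉ E → ∀ c : ℝ, {i | ¬ ∀ k : ℤ, k ≠ 0 → |(|k| : ℝ) - ∑ j, α j * v i j| ≤ c * ‖v i‖ ^ θ →
          NoPoint k}.Finite) ∧
      (∀ A : ℝ, 2 ≤ A →
        ∃ E : Set (Fin m → ℝ), dimH E ≤ ENNReal.ofReal ((m : ℝ) - 1 + (A / 4 + 1 / 6 + τ) / (1 - θ)) ∧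
          ∀ α, α ∉ E → ∀ c C : ℝ, 0 < C →
            {i | ¬ ∀ k : ℤ, k ≠ 0 → |(|k| : ℝ) - ∑ j, α j * v i j| ≤ c * ‖v i‖ ^ θ → HallUpTo C A k}.Finite)) ∧
    (∀ d : ℕ, 1 ≤ d → Fam (fun (n : ℕ) (j : Fin (d + 1)) => (n : ℝ) ^ (j : ℕ)) (1 / d)) ∧
    (∀ (m : ℕ) (b : Fin m → ℝ), (∀ j, 1 < b j) → Fam (fun (n : Fin m → ℕ) (j : Fin m) => b j ^ n j) 0) ∧
    (∀ (m : ℕ) (a : Fin m → ℝ), (∀ j, 0 < a j) →
      Fam (fun (n : Fin m → ℕ) (j : Fin m) => (n j : ℝ) ^ a j) (∑ j, 1 / a j)) ∧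
    ∀ (m : ℕ) (u : Fin m → ℕ → ℝ) (τ : Fin m → ℝ), (∀ j, Sq (u j) (τ j)) →
      Fam (fun (n : Fin m → ℕ) (j : Fin m) => u j (n j)) (∑ j, τ j) :=
  ⟨fun _ _ _ _ _ hv hτ hθ => ⟨no_points hv hτ hθ, fun A hA => hall_points hv hτ hθ A hA⟩,
    Pool.Agent.N251.LF.examples⟩

end Pool.Agent.Results.MP_f2148a_nt.GenericLinearForms
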