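import Pool.Agent.L7h23.HallK
import Pool.Agent.N733.TG.K

/-!
# Hall's conjecture up to exponential heights for all `k` near functions of the values of multiplicative functions

Let `f` be a positive multiplicative function of at most polynomial growth such that `f p ≤ M p` for the large primes `p`,
with different values at different large primes; for example Euler's function or the sum of the divisors. Let `G` be any
function with steps bounded below by a positive constant and growth at most `v^e`, for example `a v^e`, and `κ ≥ 0`.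

1. If `99 e / 100 + κ < 1`, then for all `m ≤ N` but `N / (log N)^U`, for every `U`, NONE of the equations
   `y ^ 2 = x ^ 3 + k`, `k ≠ 0`, `||k| - G (f m)| ≤ f(m)^κ`, has an integral solution with `|x| ≤ exp (|k| ^ (1 / 10000))`. For
   instance none of the equations `y ^ 2 = x ^ 3 + φ(m)`, `y ^ 2 = x ^ 3 - φ(m)` has such a solution, for these `m`.
2. If `A ≥ 2`, `e (A/4 + 1/6) + κ < 1` and `C > 0`, then for all `m ≤ N` but `N / (log N)^U` ALL integral solutions of ALL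
   these equations with `|x| ≤ |k| ^ A` satisfy Hall's inequality `max (|x|, |y|) ≤ C |k| ^ 3`.

The values of `f` are in general taken with very large multiplicities, and so this does not follow from the size of the set of
the exceptional `k`. The tool is `Pool.Agent.N733.TG` (helper733); the exceptional `k` are counted by the starting theorems
`AlmostAllK` and `SparseViolations` of this problem.
-/

set_option autoImplicit false

namespace Pool.Agent.Results.MP_f2148a_nt.MultiplicativeValues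

open Pool.Agent.L7h23.HK (NoPoint HallUpTo count_no count_hall)
open Pool.Agent.N733.TG (LM Expanding expanding_pow lm_totient lm_sigma keep_good)

/-- **Theorem.** Let `f` be a positive multiplicative function with `f m ≤ C m^D`, with `f p ≤ M p` and different values at
different large primes, `G` a function with steps `≥ a > 0` and growth at most `v^e`, `κ ≥ 0`, and `U` a natural number.
(1) If `99 e / 100 + κ < 1`, then for large `N`, for all `m ≤ N` but at most `N / (log N)^U`, the equation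
`y ^ 2 = x ^ 3 + k` has no integral solution with `|x| ≤ exp (|k| ^ (1 / 10000))` for any `k ≠ 0` with `||k| - G (f m)| ≤ f(m)^κ`.
(2) If `C > 0`, `A ≥ 2` and `e (A/4 + 1/6) + κ < 1`, then for large `N`, for all `m ≤ N` but at most `N / (log N)^U`,
`max (|x|, |y|) ≤ C |k| ^ 3` for all integral solutions of `y ^ 2 = x ^ 3 + k` with `|x| ≤ |k| ^ A`, for all these `k`.
(3) For all `m ≤ N` but at most `N / (log N)^U` none of the equations `y ^ 2 = x ^ 3 ± φ(m)`, `y ^ 2 = x ^ 3 ± σ(m)` has an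
integral solution with `|x| ≤ exp (|k| ^ (1 / 10000))`, `k` the constant of the equation.
(4) Euler's function and the sum of the divisors are examples of `f`, the `a v^e` with `a > 0`, `e ≥ 1` of `G`. -/
theorem result :
    (∀ f : ℕ → ℕ, LM f → ∀ (G : ℕ → ℝ) (e : ℝ), Expanding G e → ∀ κ : ℝ, 0 ≤ κ →
      (e * (99 / 100) + κ < 1 → ∀ U : ℕ, ∃ N₀ : ℕ, ∀ N : ℕ, N₀ ≤ N →
        ({m : ℕ | 1 ≤ m ∧ m ≤ N ∧ ¬ ∀ k : ℤ, k ≠ 0 → |(|k| : ℝ) - G (f m)| ≤ (f m : ℝ) ^ κ →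
          NoPoint k}.ncard : ℝ) ≤ N / Real.log N ^ U) ∧
      (∀ C A : ℝ, 0 < C → 2 ≤ A → e * (A / 4 + 1 / 6) + κ < 1 → ∀ U : ℕ, ∃ N₀ : ℕ, ∀ N : ℕ, N₀ ≤ N →
        ({m : ℕ | 1 ≤ m ∧ m ≤ N ∧ ¬ ∀ k : ℤ, k ≠ 0 → |(|k| : ℝ) - G (f m)| ≤ (f m : ℝ) ^ κ →
          HallUpTo C A k}.ncard : ℝ) ≤ N / Real.log N ^ U)) ∧
    (∀ f : ℕ → ℕ, LM f → ∀ U : ℕ, ∃ N₀ : ℕ, ∀ N : ℕ, N₀ ≤ N →
      ({m : ℕ | 1 ≤ m ∧ m ≤ N ∧ ¬ (NoPoint (f m) ∧ NoPoint (-(f m : ℤ)))}.ncard : ℝ) ≤ N / Real.log N ^ U) ∧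
    (LM Nat.totient ∧ LM (fun m => ∑ d ∈ m.divisors, d)) ∧
    ∀ a e : ℝ, 0 < a → 1 ≤ e → Expanding (fun v => a * (v : ℝ) ^ e) e := by
  have main : ∀ f : ℕ → ℕ, LM f → ∀ (G : ℕ → ℝ) (e : ℝ), Expanding G e → ∀ κ : ℝ, 0 ≤ κ →
      (e * (99 / 100) + κ < 1 → ∀ U : ℕ, ∃ N₀ : ℕ, ∀ N : ℕ, N₀ ≤ N →
        ({m : ℕ | 1 ≤ m ∧ m ≤ N ∧ ¬ ∀ k : ℤ, k ≠ 0 → |(|k| : ℝ) - G (f m)| ≤ (f m : ℝ) ^ κ →
          NoPoint k}.ncard : ℝ) ≤ N / Real.log N ^ U) := fun f hf G e hG κ hκ h1 U =>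
    keep_good (fun k : ℤ => k ≠ 0) NoPoint (fun k => |(k : ℝ)|) hf hG (by norm_num) hκ h1 count_no U
  refine ⟨fun f hf G e hG κ hκ => ⟨main f hf G e hG κ hκ, fun C A hC hA h1 U => ?_⟩, fun f hf U => ?_,
    ⟨lm_totient, lm_sigma⟩, fun _ _ ha he => expanding_pow ha he⟩
  · exact keep_good (fun k : ℤ => k ≠ 0) (HallUpTo C A) (fun k => |(k : ℝ)|) hf hG (by linarith) hκ h1
      (count_hall C A hC hA) U
  · obtain ⟨N₀, hN⟩ := main f hf (fun v => 1 * (v : ℝ) ^ (1 : ℝ)) 1 (expanding_pow one_pos le_rfl) 0 le_rfl (by norm_num) U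
    refine ⟨N₀, fun N hN1 => le_trans ?_ (hN N hN1)⟩
    have hfin : {m : ℕ | 1 ≤ m ∧ m ≤ N ∧ ¬ ∀ k : ℤ, k ≠ 0 → |(|k| : ℝ) - 1 * ((f m : ℕ) : ℝ) ^ (1 : ℝ)| ≤
        (f m : ℝ) ^ (0 : ℝ) → NoPoint k}.Finite :=
      (Set.finite_Icc 1 N).subset fun m hm => ⟨hm.1, hm.2.1⟩
    have hsub : {m : ℕ | 1 ≤ m ∧ m ≤ N ∧ ¬ (NoPoint (f m) ∧ NoPoint (-(f m : ℤ)))} ⊆
        {m : ℕ | 1 ≤ m ∧ m ≤ N ∧ ¬ ∀ k : ℤ, k ≠ 0 → |(|k| : ℝ) - 1 * ((f m : ℕ) : ℝ) ^ (1 : ℝ)| ≤
        (f m : ℝ) ^ (0 : ℝ) → NoPoint k} := by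
      rintro m ⟨h1, h2, h3⟩
      refine ⟨h1, h2, fun h4 => h3 ?_⟩
      have hpos : 1 ≤ f m := hf.pos m h1
      have hne : ((f m : ℕ) : ℤ) ≠ 0 := by exact_mod_cast (by omega : f m ≠ 0)
      have habs : |(((f m : ℕ) : ℤ) : ℝ)| = (f m : ℝ) := by
        rw [Int.cast_natCast]
        exact abs_of_nonneg (Nat.cast_nonneg _)
      refine ⟨h4 _ hne ?_, h4 _ (neg_ne_zero.2 hne) ?_⟩
      · rw [habs, Real.rpow_one, one_mul, sub_self, abs_zero]
        positivity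
      · rw [Int.cast_neg, abs_neg, habs, Real.rpow_one, one_mul, sub_self, abs_zero]
        positivity
    exact_mod_cast Set.ncard_le_ncard hsub hfin

end Pool.Agent.Results.MP_f2148a_nt.MultiplicativeValues
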