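import Pool.Agent.L7h23.HallK
import Pool.Agent.N671.DA.Win

/-!
# Hall's conjecture up to exponential heights for all `k` near functions of the denominators of good approximations

Let `α_1, …, α_m` be real numbers. We consider the natural numbers `q` with `‖q α_j - β_j‖ ≤ c q^(-τ)` for all `j`, `‖x‖` the
distance to the nearest integer; for `β = 0`, `c = 1`, `τ = 1 / m` these include the denominators of all best simultaneous
approximations (the denominators of the convergents for `m = 1`). Let `G` be a function with steps bounded below by a positive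
constant and growth at most `v^e`, for example `a v^e`, and `0 ≤ κ ≤ 1`.

1. For all `α` in `ℝ^m` outside a set of Hausdorff dimension at most `(m + 99 e / 100 + κ) / (1 + τ)` and all `c`, for all but
   finitely many such `q`, NONE of the equations `y ^ 2 = x ^ 3 + k`, `k ≠ 0`, `||k| - G q| ≤ q^κ`, has an integral solution
   with `|x| ≤ exp (|k| ^ (1 / 10000))`.
2. Let `A ≥ 2`. For all `α` outside a set of Hausdorff dimension at most `(m + e (A/4 + 1/6) + κ) / (1 + τ)`, all `c` and all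
   `C > 0`, for all but finitely many such `q`, ALL integral solutions of ALL these equations with `|x| ≤ |k| ^ A` satisfy
   Hall's inequality `max (|x|, |y|) ≤ C |k| ^ 3`.

For `τ = 1 / m` the bounds are less than `m` if `99 e / 100 + κ < 1`, or `e (A/4 + 1/6) + κ < 1`; and so the statements hold
for almost all `α`. For instance for almost every real number `α` and each `a > 0`, for all large denominators `q` of the
convergents, no equation with `|k|` within `q^κ`, `κ < 1 / 100`, of `a q` has such a solution.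

Proof. The exceptional `k` are few by the starting theorems `AlmostAllK` and `SparseViolations` of this problem, and so are the
`q` with an exceptional `k` near `G q`; and the `α` with `‖q α_j - β_j‖ ≤ c q^(-τ)` for all `j` and infinitely many `q` of
such a set are covered by few small cubes (`Pool.Agent.N671.DA`).
-/

set_option autoImplicit false

namespace Pool.Agent.Results.MP_f2148a_nt.SimultaneousApproximations

open Pool.Agent.L7h23.HK (NoPoint HallUpTo count_no count_hall)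
open Pool.Agent.N671.DA (Solves Expanding expanding_pow approx_windows)

theorem no_points {G : ℕ → ℝ} {e : ℝ} (hG : Expanding G e) {κ : ℝ} (hκ : 0 ≤ κ) (hκ1 : κ ≤ 1) {m : ℕ} (β : Fin m → ℝ)
    {τ : ℝ} (hτ : 0 < τ) :
    ∃ E : Set (Fin m → ℝ), dimH E ≤ ENNReal.ofReal ((m + (e * (99 / 100) + κ)) / (1 + τ)) ∧
      ∀ α, α ∉ E → ∀ c : ℝ, ∃ Q : ℕ, ∀ q : ℕ, Q ≤ q → Solves α β q (c * (q : ℝ) ^ (-τ)) →
        ∀ k : ℤ, k ≠ 0 → |(|k| : ℝ) - G q| ≤ (q : ℝ) ^ κ → NoPoint k := by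
  obtain ⟨E, h1, h2⟩ := approx_windows {k : ℤ | k ≠ 0 ∧ ¬ NoPoint k} (fun k => |(k : ℝ)|) hG
    (s := 99 / 100) (by norm_num) hκ hκ1 count_no β hτ
  refine ⟨E, h1, fun α hα c => ?_⟩
  obtain ⟨Q, hQ⟩ := h2 α hα c
  refine ⟨Q, fun q hq h3 k hk h4 => ?_⟩
  by_contra hcon
  exact hQ q hq h3 k ⟨hk, hcon⟩ h4

theorem hall_points {G : ℕ → ℝ} {e : ℝ} (hG : Expanding G e) {κ : ℝ} (hκ : 0 ≤ κ) (hκ1 : κ ≤ 1) {m : ℕ} (β : Fin m → ℝ)
    {τ : ℝ} (hτ : 0 < τ) (A : ℝ) (hA : 2 ≤ A) :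
    ∃ E : Set (Fin m → ℝ), dimH E ≤ ENNReal.ofReal ((m + (e * (A / 4 + 1 / 6) + κ)) / (1 + τ)) ∧
      ∀ α, α ∉ E → ∀ c C : ℝ, 0 < C → ∃ Q : ℕ, ∀ q : ℕ, Q ≤ q → Solves α β q (c * (q : ℝ) ^ (-τ)) →
        ∀ k : ℤ, k ≠ 0 → |(|k| : ℝ) - G q| ≤ (q : ℝ) ^ κ → HallUpTo C A k := by
  have key := fun j : ℕ => approx_windows {k : ℤ | k ≠ 0 ∧ ¬ HallUpTo (1 / ((j : ℝ) + 1)) A k}
    (fun k => |(k : ℝ)|) hG (s := A / 4 + 1 / 6) (by linarith) hκ hκ1 (count_hall _ A (by positivity) hA) β hτ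
  choose E hE1 hE2 using key
  refine ⟨⋃ j, E j, ?_, fun α hαE c C hC => ?_⟩
  · rw [dimH_iUnion]
    exact iSup_le hE1
  · rw [Set.mem_iUnion] at hαE
    push Not at hαE
    obtain ⟨j, hj⟩ := exists_nat_one_div_lt hC
    obtain ⟨Q, hQ⟩ := hE2 j α (hαE j) c
    refine ⟨Q, fun q hq h3 k hk h4 => ?_⟩
    by_contra hcon
    exact hQ q hq h3 k ⟨hk, fun h => hcon (h.mono hj.le)⟩ h4

/-- **Theorem.** Let `G` have steps `≥ a > 0` and growth at most `v^e`. Let `0 ≤ κ ≤ 1`, `β` in `ℝ^m` and `τ > 0`.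
(1) For all `α` in `ℝ^m` outside a set of Hausdorff dimension at most `(m + 99 e / 100 + κ) / (1 + τ)` and all `c`, for all
large `q` with `‖q α_j - β_j‖ ≤ c q^(-τ)` for all `j`, for all `k ≠ 0` with `||k| - G q| ≤ q^κ` the equation
`y ^ 2 = x ^ 3 + k` has no integral solution with `|x| ≤ exp (|k| ^ (1 / 10000))`.
(2) For `A ≥ 2`, all `α` outside a set of Hausdorff dimension at most `(m + e (A/4 + 1/6) + κ) / (1 + τ)`, all `c` and all
`C > 0`, for all large such `q` and all such `k`, `max (|x|, |y|) ≤ C |k| ^ 3` for all integral solutions of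
`y ^ 2 = x ^ 3 + k` with `|x| ≤ |k| ^ A`.
(3) The functions `a v^e` with `a > 0`, `e ≥ 1` are examples of `G`. -/
theorem result :
    (∀ (G : ℕ → ℝ) (e : ℝ), Expanding G e → ∀ κ : ℝ, 0 ≤ κ → κ ≤ 1 → ∀ (m : ℕ) (β : Fin m → ℝ) (τ : ℝ), 0 < τ →
      (∃ E : Set (Fin m → ℝ), dimH E ≤ ENNReal.ofReal ((m + (e * (99 / 100) + κ)) / (1 + τ)) ∧
        ∀ α, α ∉ E → ∀ c : ℝ, ∃ Q : ℕ, ∀ q : ℕ, Q ≤ q → Solves α β q (c * (q : ℝ) ^ (-τ)) →
          ∀ k : ℤ, k ≠ 0 → |(|k| : ℝ) - G q| ≤ (q : ℝ) ^ κ → NoPoint k) ∧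
      (∀ A : ℝ, 2 ≤ A →
        ∃ E : Set (Fin m → ℝ), dimH E ≤ ENNReal.ofReal ((m + (e * (A / 4 + 1 / 6) + κ)) / (1 + τ)) ∧
          ∀ α, α ∉ E → ∀ c C : ℝ, 0 < C → ∃ Q : ℕ, ∀ q : ℕ, Q ≤ q → Solves α β q (c * (q : ℝ) ^ (-τ)) →
            ∀ k : ℤ, k ≠ 0 → |(|k| : ℝ) - G q| ≤ (q : ℝ) ^ κ → HallUpTo C A k)) ∧
    ∀ a e : ℝ, 0 < a → 1 ≤ e → Expanding (fun v => a * (v : ℝ) ^ e) e :=
  ⟨fun _ _ hG _ hκ hκ1 _ β _ hτ => ⟨no_points hG hκ hκ1 β hτ, fun A hA => hall_points hG hκ hκ1 β hτ A hA⟩,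
    fun _ _ ha he => expanding_pow ha he⟩

end Pool.Agent.Results.MP_f2148a_nt.SimultaneousApproximations
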