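import Pool.Agent.L7h23.HallK
import Pool.Agent.R482.ST.Star

/-!
# Hall's conjecture up to exponential heights for all `k` in windows around powers, orbits and other sequences

Let `f_n`, `n = 0, 1, 2, …`, be positive functions on `(a, ∞)`, `a ≥ 0`, such that `f_n(t) / t` is nondecreasing, and such
that the sequence `f_n(t)` has exponent of convergence at most `τ` for each `t > a`: for instance `f_n(t) = t ^ (v_n)` for
exponents `v_n ≥ 1` (`τ = 0`; all powers, the powers `t ^ (3 ^ n)` of Mills, …), the orbits `f_n(t) = g (g (⋯ g (t)))` of any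
map `g` with `g(t) > t` and `g(t) / t` nondecreasing (`τ = 0`), and `f_n(t) = v_n t`. Let `θ < 1`.

1. For all `α > a` outside a set of Hausdorff dimension at most `(99/100 + τ) / (1 - θ)` and every `c`, for all but finitely
   many `n`, NONE of the equations `y ^ 2 = x ^ 3 + k`, `k ≠ 0`, `||k| - f_n(α)| ≤ c f_n(α) ^ θ`, has an integral solution with
   `|x| ≤ exp (|k| ^ (1 / 10000))`.
2. Let `A ≥ 2`. For all `α > a` outside a set of Hausdorff dimension at most `(A/4 + 1/6 + τ) / (1 - θ)`, every `c` and every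
   `C > 0`, for all but finitely many `n`, ALL integral solutions of ALL these equations with `|x| ≤ |k| ^ A` satisfy Hall's
   inequality `max (|x|, |y|) ≤ C |k| ^ 3`.
3. In particular, for almost every `α > 1`, every `θ < 1 / 100` and `c`, for all but finitely many `n`, none of the equations
   `y ^ 2 = x ^ 3 + k` with `||k| - α ^ n| ≤ c α ^ (θ n)` has an integral solution with `|x| ≤ exp (|k| ^ (1 / 10000))`; the
   same for the orbit of almost every `α > a` under a map `g` as above.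

Proof. The exceptional `k` are few by the starting theorems `AlmostAllK` and `SparseViolations` of this problem, and
`Pool.Agent.R482.ST` applies.
-/

set_option autoImplicit false

open MeasureTheory

namespace Pool.Agent.Results.MP_f2148a_nt.StarshapedWindows

open Pool.Agent.L7h23.HK (NoPoint HallUpTo count_no count_hall)

/-- the functions `f n` are positive on `(a, ∞)`, `a ≥ 0`, and `f n x / x` is nondecreasing there -/
def Starshaped (a : ℝ) (f : ℕ → ℝ → ℝ) : Prop :=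
  0 ≤ a ∧ ∀ n : ℕ, ∀ x y : ℝ, a < x → x ≤ y → 0 < f n x ∧ f n x / x ≤ f n y / y

/-- for each `x > a` the exponent of convergence of the sequence `f n x` is at most `τ` -/
def ExpLe (a : ℝ) (f : ℕ → ℝ → ℝ) (τ : ℝ) : Prop :=
  ∀ x : ℝ, a < x → ∀ t : ℝ, τ < t → Summable (fun n : ℕ => (f n x) ^ (-t))

lemma null_of_dim {E : Set ℝ} {d : ℝ} (h : dimH E ≤ ENNReal.ofReal d) (hd : d < 1) : volume E = 0 := by
  have h1 : dimH E < 1 := lt_of_le_of_lt h (by rw [← ENNReal.ofReal_one]; exact (ENNReal.ofReal_lt_ofReal_iff one_pos).2 hd)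
  have h2 : Measure.hausdorffMeasure ((1 : NNReal) : ℝ) E = 0 := hausdorffMeasure_of_dimH_lt (by exact_mod_cast h1)
  have h3 := MeasureTheory.hausdorffMeasure_real
  rw [← h3]
  simpa using h2

theorem no_points {a : ℝ} {f : ℕ → ℝ → ℝ} {τ θ : ℝ} (hf : Starshaped a f) (hτ : 0 ≤ τ) (hE : ExpLe a f τ) (hθ : θ < 1) :
    ∃ E : Set ℝ, dimH E ≤ ENNReal.ofReal ((99 / 100 + τ) / (1 - θ)) ∧ ∀ α : ℝ, a < α → α ∉ E → ∀ c : ℝ,
      ∃ n₀ : ℕ, ∀ n : ℕ, n₀ ≤ n → ∀ k : ℤ, k ≠ 0 → |(|k| : ℝ) - f n α| ≤ c * (f n α) ^ θ → NoPoint k := by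
  obtain ⟨E, h2, h3⟩ := Pool.Agent.R482.ST.windows {k : ℤ | k ≠ 0 ∧ ¬ NoPoint k} (fun k => |(k : ℝ)|) hf hτ hE
    (s := 99 / 100) (by norm_num) hθ count_no
  refine ⟨E, h2, fun α hα hαE c => ?_⟩
  obtain ⟨n₀, hn⟩ := h3 α hα hαE c
  refine ⟨n₀, fun n hn1 k hk hw => ?_⟩
  by_contra hcon
  exact absurd (hn n hn1 k ⟨hk, hcon⟩) (not_lt.2 hw)

theorem hall_points {a : ℝ} {f : ℕ → ℝ → ℝ} {τ θ : ℝ} (hf : Starshaped a f) (hτ : 0 ≤ τ) (hE : ExpLe a f τ) (hθ : θ < 1)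
    (A : ℝ) (hA : 2 ≤ A) :
    ∃ E : Set ℝ, dimH E ≤ ENNReal.ofReal ((A / 4 + 1 / 6 + τ) / (1 - θ)) ∧ ∀ α : ℝ, a < α → α ∉ E → ∀ c C : ℝ, 0 < C →
      ∃ n₀ : ℕ, ∀ n : ℕ, n₀ ≤ n → ∀ k : ℤ, k ≠ 0 → |(|k| : ℝ) - f n α| ≤ c * (f n α) ^ θ → HallUpTo C A k := by
  have key := fun j : ℕ => Pool.Agent.R482.ST.windows {k : ℤ | k ≠ 0 ∧ ¬ HallUpTo (1 / ((j : ℝ) + 1)) A k}
    (fun k => |(k : ℝ)|) hf hτ hE (s := A / 4 + 1 / 6) (by linarith) hθ (count_hall _ A (by positivity) hA)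
  choose E hE1 hE2 using key
  refine ⟨⋃ j, E j, ?_, fun α hα hαE c C hC => ?_⟩
  · rw [dimH_iUnion]
    exact iSup_le hE1
  · rw [Set.mem_iUnion] at hαE
    push Not at hαE
    obtain ⟨j, hj⟩ := exists_nat_one_div_lt hC
    obtain ⟨n₀, hn⟩ := hE2 j α hα (hαE j) c
    refine ⟨n₀, fun n hn1 k hk hw => ?_⟩
    by_contra hcon
    refine absurd (hn n hn1 k ⟨hk, fun h => hcon (h.mono hj.le)⟩) (not_lt.2 hw)

theorem ae_no {a : ℝ} {f : ℕ → ℝ → ℝ} (hf : Starshaped a f) (hE : ExpLe a f 0) :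
    ∀ᵐ α : ℝ, a < α → ∀ θ c : ℝ, θ < 1 / 100 → ∃ n₀ : ℕ, ∀ n : ℕ, n₀ ≤ n → ∀ k : ℤ, k ≠ 0 →
      |(|k| : ℝ) - f n α| ≤ c * (f n α) ^ θ → NoPoint k := by
  have key := fun j : ℕ => no_points hf le_rfl hE (θ := 1 / 100 - 1 / ((j : ℝ) + 101)) (by
    have : (0 : ℝ) < 1 / ((j : ℝ) + 101) := by positivity
    linarith)
  choose E hE1 hE2 using key
  have hnull : ∀ j, volume (E j) = 0 := fun j => by
    refine null_of_dim (hE1 j) ?_
    have h1 : (0 : ℝ) < 1 / ((j : ℝ) + 101) := by positivity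
    rw [add_zero, div_lt_one (by linarith)]
    linarith
  have h1 : ∀ᵐ α : ℝ, ∀ j, α ∉ E j := ae_all_iff.2 fun j => by
    rw [ae_iff]
    simpa using hnull j
  have h2 : ∀ α : ℝ, a < α → ∀ᶠ n in Filter.atTop, 1 ≤ f n α := fun α hα => by
    have := (hE α hα 1 (by norm_num)).tendsto_atTop_zero.eventually (gt_mem_nhds (show (0 : ℝ) < 1 by norm_num))
    filter_upwards [this] with n hn
    by_contra hcon
    push Not at hcon
    have hp := (hf.2 n α α hα le_rfl).1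
    have h3 : (1 : ℝ) ≤ (f n α) ^ (-1 : ℝ) := by
      rw [Real.rpow_neg_one]
      exact (one_le_inv₀ hp).2 hcon.le
    exact absurd hn (not_lt.2 h3)
  filter_upwards [h1] with α hα haα θ c hθ
  obtain ⟨j, hj⟩ : ∃ j : ℕ, 1 / ((j : ℝ) + 1) < 1 / 100 - θ := exists_nat_one_div_lt (by linarith)
  obtain ⟨n₀, hn⟩ := hE2 j α haα (hα j) |c|
  obtain ⟨n₁, hn1⟩ := Filter.eventually_atTop.1 (h2 α haα)
  refine ⟨max n₀ n₁, fun n hnn k hk hw => hn n (le_trans (le_max_left _ _) hnn) k hk (hw.trans ?_)⟩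
  have h3 := hn1 n (le_trans (le_max_right _ _) hnn)
  have h4 : θ ≤ 1 / 100 - 1 / ((j : ℝ) + 101) := by
    have : 1 / ((j : ℝ) + 101) ≤ 1 / ((j : ℝ) + 1) := one_div_le_one_div_of_le (by positivity) (by linarith)
    linarith
  calc c * (f n α) ^ θ ≤ |c| * (f n α) ^ θ := mul_le_mul_of_nonneg_right (le_abs_self c) (by positivity)
    _ ≤ |c| * (f n α) ^ (1 / 100 - 1 / ((j : ℝ) + 101)) :=
      mul_le_mul_of_nonneg_left (Real.rpow_le_rpow_of_exponent_le h3 h4) (abs_nonneg c)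

/-- **Theorem.** Let `f_n` be starshaped functions on `(a, ∞)` of exponent of convergence at most `τ ≥ 0` and `θ < 1`.
(1) There is a set `E` of Hausdorff dimension at most `(99/100 + τ) / (1 - θ)` such that for each `α > a` outside `E` and each
`c`, for all but finitely many `n`, for all `k ≠ 0` with `||k| - f_n(α)| ≤ c f_n(α) ^ θ` the equation `y ^ 2 = x ^ 3 + k` has no
integral solution with `|x| ≤ exp (|k| ^ (1 / 10000))`.
(2) For `A ≥ 2` there is a set `E` of Hausdorff dimension at most `(A/4 + 1/6 + τ) / (1 - θ)` such that for each `α > a` outside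
`E`, each `c` and each `C > 0`, for all but finitely many `n`, `max (|x|, |y|) ≤ C |k| ^ 3` for all integral solutions of
`y ^ 2 = x ^ 3 + k` with `|x| ≤ |k| ^ A`, for all `k ≠ 0` with `||k| - f_n(α)| ≤ c f_n(α) ^ θ`.
(3) For almost every `α > 1`, (1) holds for `f_n(α) = α ^ n` and all `θ < 1 / 100`, `c`; and for almost every `α > a` it holds for
the iterates `f_n = g ∘ ⋯ ∘ g` of a map `g` with `g(x) > x` for `x > a` and `g(x) / x` nondecreasing.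
(4) Examples of starshaped functions. -/
theorem result :
    (∀ (a : ℝ) (f : ℕ → ℝ → ℝ) (τ θ : ℝ), Starshaped a f → 0 ≤ τ → ExpLe a f τ → θ < 1 →
      (∃ E : Set ℝ, dimH E ≤ ENNReal.ofReal ((99 / 100 + τ) / (1 - θ)) ∧ ∀ α : ℝ, a < α → α ∉ E → ∀ c : ℝ,
        ∃ n₀ : ℕ, ∀ n : ℕ, n₀ ≤ n → ∀ k : ℤ, k ≠ 0 → |(|k| : ℝ) - f n α| ≤ c * (f n α) ^ θ → NoPoint k) ∧
      (∀ A : ℝ, 2 ≤ A →
        ∃ E : Set ℝ, dimH E ≤ ENNReal.ofReal ((A / 4 + 1 / 6 + τ) / (1 - θ)) ∧ ∀ α : ℝ, a < α → α ∉ E →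
          ∀ c C : ℝ, 0 < C → ∃ n₀ : ℕ, ∀ n : ℕ, n₀ ≤ n → ∀ k : ℤ, k ≠ 0 →
            |(|k| : ℝ) - f n α| ≤ c * (f n α) ^ θ → HallUpTo C A k)) ∧
    (∀ᵐ α : ℝ, 1 < α → ∀ θ c : ℝ, θ < 1 / 100 → ∃ n₀ : ℕ, ∀ n : ℕ, n₀ ≤ n → ∀ k : ℤ, k ≠ 0 →
      |(|k| : ℝ) - α ^ (n : ℝ)| ≤ c * (α ^ (n : ℝ)) ^ θ → NoPoint k) ∧
    (∀ (a : ℝ) (g : ℝ → ℝ), 0 ≤ a → (∀ x y : ℝ, a < x → x ≤ y → g x / x ≤ g y / y) → (∀ x : ℝ, a < x → x < g x) →
      ∀ᵐ α : ℝ, a < α → ∀ θ c : ℝ, θ < 1 / 100 → ∃ n₀ : ℕ, ∀ n : ℕ, n₀ ≤ n → ∀ k : ℤ, k ≠ 0 →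
        |(|k| : ℝ) - g^[n] α| ≤ c * (g^[n] α) ^ θ → NoPoint k) ∧
    (∀ (v : ℕ → ℝ) (τ : ℝ), (∀ n, 0 < v n) → (∀ t : ℝ, τ < t → Summable (fun n : ℕ => (v n) ^ (-t))) →
      Starshaped 0 (fun n x => v n * x) ∧ ExpLe 0 (fun n x => v n * x) τ) ∧
    (∀ v : ℕ → ℝ, (∀ n, 1 ≤ v n) → (∀ t : ℝ, 0 < t → Summable fun n : ℕ => Real.exp (-(t * v n))) →
      Starshaped 1 (fun n x => x ^ (v n)) ∧ ExpLe 1 (fun n x => x ^ (v n)) 0) ∧
    (∀ (a : ℝ) (g : ℝ → ℝ), 0 ≤ a → (∀ x y : ℝ, a < x → x ≤ y → g x / x ≤ g y / y) → (∀ x : ℝ, a < x → x < g x) →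
      Starshaped a (fun n x => g^[n] x) ∧ ExpLe a (fun n x => g^[n] x) 0) := by
  refine ⟨fun a f τ θ hf hτ hE hθ => ⟨no_points hf hτ hE hθ, fun A hA => hall_points hf hτ hE hθ A hA⟩, ?_, ?_,
    Pool.Agent.R482.ST.ex_mul, Pool.Agent.R482.ST.ex_pow, Pool.Agent.R482.ST.ex_orbit⟩
  · -- the powers: the exponents `n + 1`
    have hs : ∀ t : ℝ, 0 < t → Summable fun n : ℕ => Real.exp (-(t * ((n : ℝ) + 1))) := fun t ht => by
      have h1 : (fun n : ℕ => Real.exp (-(t * ((n : ℝ) + 1)))) = fun n : ℕ => Real.exp (-t) * Real.exp (-t) ^ n := by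
        funext n
        rw [← Real.exp_nat_mul, ← Real.exp_add]
        congr 1
        ring
      rw [h1]
      exact (summable_geometric_of_lt_one (Real.exp_pos _).le (Real.exp_lt_one_iff.2 (by linarith))).mul_left _
    obtain ⟨h1, h2⟩ := Pool.Agent.R482.ST.ex_pow (fun n => (n : ℝ) + 1) (fun n => by
      have : (0 : ℝ) ≤ n := Nat.cast_nonneg n
      linarith) hs
    filter_upwards [ae_no h1 h2] with α hα h1α θ c hθ
    obtain ⟨n₀, hn⟩ := hα h1α θ c hθ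
    refine ⟨n₀ + 1, fun n hn1 k hk hw => ?_⟩
    obtain ⟨m, rfl⟩ : ∃ m, n = m + 1 := ⟨n - 1, by omega⟩
    refine hn m (by omega) k hk ?_
    push_cast at hw
    exact hw
  · intro a g ha hg1 hg2
    obtain ⟨h1, h2⟩ := Pool.Agent.R482.ST.ex_orbit a g ha hg1 hg2
    exact ae_no h1 h2

end Pool.Agent.Results.MP_f2148a_nt.StarshapedWindows
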